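import Pool.Agent.Q260.SL.Stm2
import Pool.Agent.Q95.SL.FL

set_option autoImplicit false

/-!
# The derivatives of zeta are uniformly large far to the left
-/

namespace Pool.Agent.Q182.SL

open Complex Filter Topology Metric Set
open Pool.Agent.Q260.SL Pool.Agent.Q95.SL
open Pool.Agent.H24R2.JP (HH XX Om)
open scoped ComplexConjugate

theorem aux_eq (a b G L : ℂ) (ha : a ≠ 0) (hb : b ≠ 0) (hG : G ≠ 0) (hab : a + b = 1) :
    -4 * (a * b) * L + 4 = -4 * (a * b) * G * ((L - 1 / a - 1 / b) / G) := by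
  have h1 : -4 * (a * b) * G * ((L - 1 / a - 1 / b) / G) = -4 * (a * b) * L + 4 * (a + b) := by
    field_simp
    ring
  rw [h1, hab, mul_one]

theorem XX_eq {z : ℂ} (hz : 0 < z.im) (hr : 0 ≤ z.re) :
    HH z ≠ 0 ∧ XX z = HH z * riemannZeta (1 / 2 + z) := by
  have h0 : (1 / 2 + z : ℂ) ≠ 0 := by
    intro h
    have := congrArg Complex.im h
    simp at this
    linarith
  have h1 : (1 - (1 / 2 + z) : ℂ) ≠ 0 := by
    intro h
    have := congrArg Complex.im h
    simp at this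
    linarith
  have hG : Gammaℝ (1 / 2 + z) ≠ 0 := Gammaℝ_ne_zero_of_re_pos (by simp; linarith)
  have h2 : (4 * z ^ 2 - 1 : ℂ) = -4 * ((1 / 2 + z) * (1 - (1 / 2 + z))) := by ring
  refine ⟨?_, ?_⟩
  · rw [HH, h2]
    exact mul_ne_zero (mul_ne_zero (by norm_num) (mul_ne_zero h0 h1)) hG
  · rw [riemannZeta_def_of_ne_zero h0, completedRiemannZeta_eq, HH, XX, h2]
    exact aux_eq _ _ _ _ h0 h1 hG (by ring)

/-- zeta is bounded below to the right of `5/4` -/
theorem zeta_lower : ∃ K : ℝ, 0 < K ∧ ∀ s : ℂ, 5 / 4 ≤ s.re → 1 ≤ K * ‖riemannZeta s‖ := by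
  let f : ℕ → ℂ := fun n => ((ArithmeticFunction.moebius n : ℤ) : ℂ)
  have hsum : Summable fun n : ℕ => ‖LSeries.term f ((5 / 4 : ℝ) : ℂ) n‖ := by
    have : LSeriesSummable f ((5 / 4 : ℝ) : ℂ) :=
      ArithmeticFunction.LSeriesSummable_moebius_iff.mpr (by simp; norm_num)
    exact this.norm
  refine ⟨(∑' n : ℕ, ‖LSeries.term f ((5 / 4 : ℝ) : ℂ) n‖) + 1, ?_, ?_⟩
  · have : 0 ≤ ∑' n : ℕ, ‖LSeries.term f ((5 / 4 : ℝ) : ℂ) n‖ := tsum_nonneg fun _ => norm_nonneg _
    linarith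
  · intro s hs
    have h1 : 1 < s.re := by linarith
    have h2 := LSeries_one_mul_Lseries_moebius h1
    rw [LSeries_one_eq_riemannZeta h1] at h2
    have h3 : ‖LSeries f s‖ ≤ ∑' n : ℕ, ‖LSeries.term f ((5 / 4 : ℝ) : ℂ) n‖ := by
      refine tsum_of_norm_bounded hsum.hasSum fun n => ?_
      exact LSeries.norm_term_le_of_re_le_re f (by simpa using hs) n
    have h4 : ‖riemannZeta s‖ * ‖LSeries f s‖ = 1 := by
      rw [← norm_mul]
      have : riemannZeta s * LSeries f s = 1 := h2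
      rw [this, norm_one]
    have h5 := mul_le_mul_of_nonneg_left h3 (norm_nonneg (riemannZeta s))
    have h6 := norm_nonneg (riemannZeta s)
    nlinarith

/-- the norm increases to the right -/
theorem mono0 {C T : ℝ} (hT : 3 ≤ T) (h : ∀ z : ℂ, FL.ab 0 < z.re → T < z.im →
    Zk 0 z ≠ 0 ∧ ‖logDeriv (Zk 0) z - FL.Lg z‖ ≤ C) (x y : ℝ) (hx : 1 ≤ x) (hy : T < y)
    (hy' : Real.exp C ≤ y) : ‖Zk 0 (((1 : ℝ) : ℂ) + I * y)‖ ≤ ‖Zk 0 ((x : ℂ) + I * y)‖ := by
  have hab := FL.ab_le 0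
  have hre : ∀ t : ℝ, ((t : ℂ) + I * y).re = t := fun t => by simp
  have him : ∀ t : ℝ, ((t : ℂ) + I * y).im = y := fun t => by simp
  have hd : ∀ t : ℝ, HasDerivAt (fun t : ℝ => Zk 0 ((t : ℂ) + I * y))
      (Zk 1 ((t : ℂ) + I * y)) t := by
    intro t
    have h1 : HasDerivAt (Zk 0) (Zk 1 ((t : ℂ) + I * y)) ((t : ℂ) + I * y) :=
      FL.Zk_deriv 0 (by rw [him]; linarith)
    have h2 : HasDerivAt (fun w : ℂ => w + I * y) 1 (t : ℂ) := (hasDerivAt_id _).add_const _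
    have h3 := HasDerivAt.comp (t : ℂ) h1 h2
    rw [mul_one] at h3
    exact h3.comp_ofReal
  have hn : ∀ t : ℝ, HasDerivAt (fun t : ℝ => ‖Zk 0 ((t : ℂ) + I * y)‖ ^ 2)
      (2 * (Zk 1 ((t : ℂ) + I * y) * conj (Zk 0 ((t : ℂ) + I * y))).re) t := by
    intro t
    have h1 := (hd t).norm_sq
    rw [Complex.inner] at h1
    exact h1
  have hm : MonotoneOn (fun t : ℝ => ‖Zk 0 ((t : ℂ) + I * y)‖ ^ 2) (Ici 1) := by
    apply monotoneOn_of_deriv_nonneg (convex_Ici 1)
    · exact fun t _ => (hn t).continuousAt.continuousWithinAt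
    · exact fun t _ => (hn t).differentiableAt.differentiableWithinAt
    · intro t ht
      rw [interior_Ici] at ht
      have ht : 1 < t := ht
      rw [(hn t).deriv]
      set z : ℂ := (t : ℂ) + I * y with hz
      obtain ⟨h1, h2⟩ := h z (by rw [hre]; linarith) (by rw [him]; exact hy)
      have h3 : Zk 1 z = Zk 0 z * logDeriv (Zk 0) z := by
        rw [logDeriv_apply, ← FL.Zk_succ, mul_div_cancel₀ _ h1]
      have h4 : Zk 1 z * conj (Zk 0 z) = ((‖Zk 0 z‖ ^ 2 : ℝ) : ℂ) * logDeriv (Zk 0) z := by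
        rw [h3, mul_right_comm, Complex.mul_conj, Complex.normSq_eq_norm_sq]
      rw [h4, Complex.re_ofReal_mul]
      have h5 : 0 ≤ (logDeriv (Zk 0) z).re := by
        have h6 : C ≤ (FL.Lg z).re := by
          unfold FL.Lg
          rw [Complex.log_re]
          have h7 : Real.exp C ≤ ‖(z + 5 / 2 : ℂ)‖ := by
            refine le_trans ?_ (Complex.abs_im_le_norm _)
            have : (z + 5 / 2 : ℂ).im = y := by
              rw [Complex.add_im, him]
              simp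
            rw [this, abs_of_pos (by linarith)]
            exact hy'
          have h8 := Real.log_le_log (Real.exp_pos C) h7
          rw [Real.log_exp] at h8
          exact h8
        have h9 := (Complex.abs_re_le_norm (logDeriv (Zk 0) z - FL.Lg z)).trans h2
        rw [Complex.sub_re, abs_le] at h9
        linarith [h9.1]
      positivity
  have h1 := hm (Set.mem_Ici.mpr (le_refl (1 : ℝ))) (show x ∈ Ici (1 : ℝ) from hx) hx
  exact (pow_le_pow_iff_left₀ (norm_nonneg _) (norm_nonneg _) two_ne_zero).mp h1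

theorem flr0 (h1 : S_ZA) (h2 : S_HM) (R : ℝ) :
    ∃ T0 : ℝ, 3 ≤ T0 ∧ ∀ z : ℂ, 1 ≤ z.re → T0 ≤ z.im → R ≤ ‖Zk 0 z‖ := by
  obtain ⟨C, T, hT, hA⟩ := FL.all 0
  obtain ⟨hHM, C1, T1, hC1, hT1, -, -, hH⟩ := h2
  obtain ⟨K, hK, hζ⟩ := zeta_lower
  refine ⟨T + 1 + Real.exp C + T1 + |R| * K * Real.exp C1, ?_, ?_⟩
  · have := Real.exp_pos C
    have : 0 ≤ |R| * K * Real.exp C1 := by positivity
    linarith
  intro z hz1 hz2
  have he := Real.exp_pos C
  have hRK : 0 ≤ |R| * K * Real.exp C1 := by positivity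
  set y := z.im with hy
  have hy0 : 0 < y := by linarith
  have hzz : z = (z.re : ℂ) + I * (y : ℂ) := by
    rw [hy, mul_comm]
    exact (Complex.re_add_im z).symm
  rw [hzz]
  refine le_trans ?_ (mono0 hT hA z.re y hz1 (by linarith) (by linarith))
  set w : ℂ := ((1 : ℝ) : ℂ) + I * y with hw
  have hwr : w.re = 1 := by simp [hw]
  have hwi : w.im = y := by simp [hw]
  obtain ⟨hne, hX⟩ := XX_eq (z := w) (by rw [hwi]; exact hy0) (by rw [hwr]; norm_num)
  have hX2 : XX w = Gk 0 w := h1.2.1 w (by rw [hwi]; exact hy0)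
  have hHMw := (hHM w (by rw [hwi]; exact hy0)).1
  have hlog := hH w (by rw [hwr]; norm_num) (by rw [hwr]; norm_num) (by rw [hwi]; linarith)
  rw [hwr, hwi, mul_one] at hlog
  have hp1 : 0 < ‖HH w‖ := norm_pos_iff.mpr hne
  have hp2 : 0 < ‖HM w‖ := norm_pos_iff.mpr hHMw
  have h3 : Real.log y - C1 ≤ Real.log (‖HH w‖ / ‖HM w‖) := by
    have := (abs_le.mp hlog).1
    linarith
  have h4 : y * Real.exp (-C1) ≤ ‖HH w‖ / ‖HM w‖ := by
    have h5 := Real.exp_le_exp.mpr h3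
    rw [Real.exp_log (div_pos hp1 hp2), sub_eq_add_neg, Real.exp_add, Real.exp_log hy0] at h5
    exact h5
  have h6 : ‖Zk 0 w‖ = ‖HH w‖ / ‖HM w‖ * ‖riemannZeta (1 / 2 + w)‖ := by
    have h7 : ‖Zk 0 w‖ * ‖HM w‖ = ‖HH w‖ * ‖riemannZeta (1 / 2 + w)‖ := by
      rw [← norm_mul, ← norm_mul, ← hX, hX2]
      rfl
    rw [div_mul_eq_mul_div, eq_div_iff hp2.ne', h7]
  have h8 := hζ (1 / 2 + w) (by rw [Complex.add_re, hwr]; norm_num)
  rw [h6]
  have h9 : |R| * K ≤ ‖HH w‖ / ‖HM w‖ := by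
    refine le_trans ?_ h4
    have h10 : |R| * K * Real.exp C1 ≤ y := by linarith
    have h11 := mul_le_mul_of_nonneg_right h10 (Real.exp_pos (-C1)).le
    rw [mul_assoc, ← Real.exp_add] at h11
    simpa using h11
  have h12 := norm_nonneg (riemannZeta (1 / 2 + w))
  calc R ≤ |R| * 1 := by rw [mul_one]; exact le_abs_self R
    _ ≤ |R| * (K * ‖riemannZeta (1 / 2 + w)‖) := mul_le_mul_of_nonneg_left h8 (abs_nonneg R)
    _ = |R| * K * ‖riemannZeta (1 / 2 + w)‖ := by ring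
    _ ≤ _ := mul_le_mul_of_nonneg_right h9 h12

theorem t_FLR (h1 : S_ZA) (h2 : S_HM) : S_FLR := by
  intro k R
  induction k with
  | zero => exact flr0 h1 h2 R
  | succ k ih =>
    obtain ⟨T0, hT0, h0⟩ := ih
    obtain ⟨C, T, hT, hA⟩ := FL.all k
    refine ⟨T0 + T + Real.exp (C + 1), ?_, ?_⟩
    · have := Real.exp_pos (C + 1)
      linarith
    intro z hz1 hz2
    have he := Real.exp_pos (C + 1)
    have hab := FL.ab_le k
    obtain ⟨hne, hl⟩ := hA z (by linarith) (by linarith)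
    have hR := h0 z hz1 (by linarith)
    have hLg : C + 1 ≤ ‖FL.Lg z‖ := by
      refine le_trans ?_ (Complex.re_le_norm _)
      unfold FL.Lg
      rw [Complex.log_re]
      have h3 : Real.exp (C + 1) ≤ ‖(z + 5 / 2 : ℂ)‖ := by
        refine le_trans ?_ (Complex.abs_im_le_norm _)
        have : (z + 5 / 2 : ℂ).im = z.im := by simp
        rw [this, abs_of_pos (by linarith)]
        linarith
      have h4 := Real.log_le_log he h3
      rw [Real.log_exp] at h4
      exact h4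
    have hq : 1 ≤ ‖logDeriv (Zk k) z‖ := by
      have h5 : ‖FL.Lg z‖ - ‖logDeriv (Zk k) z‖ ≤ ‖logDeriv (Zk k) z - FL.Lg z‖ := by
        rw [norm_sub_rev]
        exact norm_sub_norm_le _ _
      linarith
    have h6 : Zk (k + 1) z = Zk k z * logDeriv (Zk k) z := by
      rw [logDeriv_apply, ← FL.Zk_succ, mul_div_cancel₀ _ hne]
    rw [h6, norm_mul]
    have h7 := norm_nonneg (Zk k z)
    nlinarith

end Pool.Agent.Q182.SL
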